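import Pool.Agent.N534.TL.Sup2
import Pool.Agent.Y722.HS.Main

/-!
# Sums over the primes of local logarithms: a majorant in a rectangle

`lam p u`, for the primes `p` and the complex numbers `u` with nonnegative real part, is close to `N p (c mod p) p^{-u}`
unless `B p (c mod p)` is positive.  The sum of `lam p u` over all primes is bounded, in the mean square over a box of
vectors `c`, in the rectangles `1 / log H ≤ Re u ≤ 1`, `|Im u| ≤ T`.
-/

set_option autoImplicit false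

namespace Pool.Agent.N534.LF

open Finset Pool.Agent.Y722.HS Pool.Agent.Y722.LS Pool.Agent.N534.TL

variable {ι : Type} [Fintype ι] [DecidableEq ι]

/-- Local logarithms close to `N p (c mod p) p^{-u}`. -/
structure Loc (β : ℝ) (N B : ∀ p : ℕ, (ι → ZMod p) → ℝ) (c : ι → ℤ) (lam : ℕ → ℂ → ℂ) : Prop where
  near : ∀ p : ℕ, p.Prime → ∀ u : ℂ, 0 ≤ u.re →
    ‖lam p u - (p : ℂ) ^ (-u) * (N p (red p c) : ℂ)‖ ≤
      bb N B β p (red p c) + β * (1 / (p : ℝ) ^ ((3 : ℝ) / 2))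
  bound : ∀ p : ℕ, p.Prime → ∀ u : ℂ, 0 ≤ u.re → ‖lam p u‖ ≤ β * (p : ℝ) ^ (-1 - u.re)

variable {A β : ℝ} {N B : ∀ p : ℕ, (ι → ZMod p) → ℝ}

theorem Loc.summable {c : ι → ℤ} {lam : ℕ → ℂ → ℂ} (h : Loc β N B c lam) {u : ℂ} (hu : 0 < u.re) :
    Summable fun p : Nat.Primes => lam p u :=
  Summable.of_norm_bounded ((summable_primes hu).mul_left β) fun p => h.bound p p.2 u hu.le

/-- The primes above `y` contribute little. -/
theorem Loc.tail {c : ι → ℤ} {lam : ℕ → ℂ → ℂ} (hβ : 0 ≤ β) (h : Loc β N B c lam) {u : ℂ}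
    (hu : 0 < u.re) (hu1 : u.re ≤ 1) (y : ℕ) (hy : 1 ≤ y) :
    ‖(∑' p : Nat.Primes, lam p u) - ∑ p ∈ PR y, lam p u‖ ≤ β * (16 / (u.re * Real.log (y + 1))) := by
  have hg : Summable fun p : Nat.Primes => β * ((p : ℕ) : ℝ) ^ (-1 - u.re) :=
    (summable_primes hu).mul_left _
  have h1 := h.summable hu
  set S : Finset Nat.Primes := (PR y).subtype Nat.Prime with hS
  have hsum : ∀ f : ℕ → ℂ, ∑ p ∈ S, f (p : ℕ) = ∑ p ∈ PR y, f p := by
    intro f
    exact Finset.sum_subtype_of_mem f fun p hp => (mem_PR.mp hp).2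
  have hSmem : ∀ q : Nat.Primes, q ∈ S ↔ (q : ℕ) ≤ y := by
    intro q
    exact (Finset.mem_subtype (p := Nat.Prime) (s := PR y) (a := q)).trans
      (mem_PR.trans ⟨fun h => h.1, fun h => ⟨h, q.2⟩⟩)
  have h2 := h1.sum_add_tsum_subtype_compl S
  have h3 : ‖∑' p : {p : Nat.Primes // p ∉ S}, lam (p : Nat.Primes) u‖ ≤
      β * (16 / (u.re * Real.log (y + 1))) := by
    have h4 : Summable fun p : {p : Nat.Primes // p ∉ S} =>
        β * (((p : Nat.Primes) : ℕ) : ℝ) ^ (-1 - u.re) :=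
      hg.comp_injective Subtype.val_injective
    refine (tsum_of_norm_bounded h4.hasSum fun p => h.bound p p.1.2 u hu.le).trans ?_
    refine h4.tsum_le_of_sum_le fun t => ?_
    rw [← Finset.mul_sum]
    refine mul_le_mul_of_nonneg_left ?_ hβ
    have h5 := tail_le (y + 1) (by omega) u.re hu hu1
      (t.image (fun p : {p : Nat.Primes // p ∉ S} => ((p : Nat.Primes) : ℕ))) (by
        intro q hq
        obtain ⟨p, _, rfl⟩ := Finset.mem_image.mp hq
        refine ⟨p.1.2, ?_⟩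
        have h6 : ¬ ((p.1 : Nat.Primes) : ℕ) ≤ y := fun h => p.2 ((hSmem p.1).mpr h)
        omega)
    have h6 : ∑ q ∈ t.image (fun p : {p : Nat.Primes // p ∉ S} => ((p : Nat.Primes) : ℕ)),
        (q : ℝ) ^ (-1 - u.re) = ∑ p ∈ t, (((p : Nat.Primes) : ℕ) : ℝ) ^ (-1 - u.re) :=
      Finset.sum_image (fun a _ b _ h => Subtype.ext (Subtype.ext h))
    rw [h6] at h5
    push_cast at h5
    exact h5
  rw [← h2, hsum (fun p => lam p u), add_sub_cancel_left]
  exact h3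

theorem Loc.zc {c : ι → ℤ} {lam : ℕ → ℂ → ℂ} (hβ : 0 ≤ β) (h : Loc β N B c lam) {u : ℂ}
    (hu : 0 ≤ u.re) (y : ℕ) :
    ‖(∑ p ∈ PR y, lam p u) - ZC N y c u‖ ≤ (∑ p ∈ PR y, bb N B β p (red p c)) + β * SS := by
  unfold ZC
  rw [← Finset.sum_sub_distrib]
  refine (norm_sum_le _ _).trans ?_
  refine (Finset.sum_le_sum fun p hp => h.near p (mem_PR.mp hp).2 u hu).trans ?_
  rw [Finset.sum_add_distrib, ← Finset.mul_sum]
  have := mul_le_mul_of_nonneg_left (sum_le_SS (PR y)) hβ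
  linarith

/-- **The majorant.** -/
theorem majorant (hF : Fam A N B) (hβ : 0 ≤ β) :
    ∃ C : ℝ, 0 < C ∧ ∀ H : ℕ, 2 ≤ H → ∀ T : ℝ, 0 ≤ T → ∃ M : (ι → ℤ) → ℝ,
      (∀ c, 0 ≤ M c) ∧ EB H M ≤ C * (1 + T) ∧
      ∀ (c : ι → ℤ) (lam : ℕ → ℂ → ℂ), Loc β N B c lam → ∀ u : ℂ, 1 / Real.log H ≤ u.re →
        u.re ≤ 1 → |u.im| ≤ T → ‖∑' p : Nat.Primes, lam p u‖ ^ 2 ≤ M c := by
  set K' : ℝ := β * SS + 64 * β with hK'
  have hSS := SS_nonneg
  have hK0 : 0 ≤ K' := by positivity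
  have hA1 := hF.A0
  have hK1 : 0 ≤ K1 ι A := by
    unfold K1
    positivity
  have hK4 : 0 ≤ K4 ι A β :=
    le_trans (by unfold EB; positivity) (hF.EB_bb_sq hβ 0 0 (by norm_num))
  refine ⟨3 * (11 * (4 * Real.pi * K1 ι A)) + 3 * K4 ι A β + 3 * K' ^ 2 + 1, by positivity, ?_⟩
  intro H hH T hT
  obtain ⟨y, hy1, hy4, hyl⟩ := exists_y H hH
  have hlogH : 0 < Real.log H := Real.log_pos (by exact_mod_cast (by omega : 1 < H))
  set k : ℕ := ⌈4 * T + 1⌉₊ with hk
  have hk1 : 4 * T + 1 ≤ k := Nat.le_ceil _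
  have hk2 : (k : ℝ) < 4 * T + 2 := by
    have := Nat.ceil_lt_add_one (a := 4 * T + 1) (by positivity)
    linarith
  refine ⟨fun c => 3 * G2 N y k c +
    3 * (∑ p ∈ PR y, bb N B β p (red p c)) ^ 2 + 3 * K' ^ 2, ?_, ?_, ?_⟩
  · intro c
    have := G2_nonneg (N := N) y k c
    positivity
  · rw [EB_add, EB_add, EB_const, Pool.Agent.Y722.HS.EB_mul, Pool.Agent.Y722.HS.EB_mul]
    have e1 := EB_G2 hF H y k hy4
    have e2 := hF.EB_bb_sq hβ H y hy4
    have hpi := Real.pi_pos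
    have e3 : (2 * (k : ℝ) + 1) * (4 * Real.pi * K1 ι A) ≤ (11 * (1 + T)) * (4 * Real.pi * K1 ι A) := by
      apply mul_le_mul_of_nonneg_right _ (by positivity)
      linarith
    have e4 : 3 * K4 ι A β ≤ 3 * K4 ι A β * (1 + T) := le_mul_of_one_le_right (by positivity) (by linarith)
    have e5 : 3 * K' ^ 2 ≤ 3 * K' ^ 2 * (1 + T) := le_mul_of_one_le_right (by positivity) (by linarith)
    nlinarith
  · intro c lam hl u hε0 hε1 hτ
    have hεp : 0 < u.re := lt_of_lt_of_le (by positivity) hε0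
    have hyε : 1 ≤ 4 * (u.re * Real.log (y + 1)) := by
      have h4 : 1 ≤ u.re * Real.log H := by
        rw [div_le_iff₀ hlogH] at hε0
        exact hε0
      calc (1 : ℝ) ≤ u.re * Real.log H := h4
        _ ≤ u.re * (4 * Real.log (y + 1)) := by gcongr
        _ = _ := by ring
    have h1 := hl.tail hβ hεp hε1 y hy1
    have h16 : 16 / (u.re * Real.log (y + 1)) ≤ 64 := by
      rw [div_le_iff₀ (by linarith)]
      linarith
    have h1' : β * (16 / (u.re * Real.log (y + 1))) ≤ 64 * β := by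
      rw [mul_comm (64 : ℝ)]
      exact mul_le_mul_of_nonneg_left h16 hβ
    have h3 := hl.zc hβ hεp.le y
    have h2 := ZC_le (N := N) y k c u.re u.im hεp.le hε1 (by linarith)
    rw [Complex.re_add_im] at h2
    set X := ‖∑' p : Nat.Primes, lam p u‖ with hX
    set z := ‖ZC N y c u‖ with hz
    set w := ∑ p ∈ PR y, bb N B β p (red p c) with hw
    have hw0 : 0 ≤ w := Finset.sum_nonneg fun p _ => hF.bb_nonneg hβ p _
    have h6 : X ≤ z + w + K' := by
      have e0 : (∑' p : Nat.Primes, lam p u) = ((∑' p : Nat.Primes, lam p u) - ∑ p ∈ PR y, lam p u) +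
          ((∑ p ∈ PR y, lam p u) - ZC N y c u) + ZC N y c u := by ring
      have i1 := norm_add_le (((∑' p : Nat.Primes, lam p u) - ∑ p ∈ PR y, lam p u) +
          ((∑ p ∈ PR y, lam p u) - ZC N y c u)) (ZC N y c u)
      have i2 := norm_add_le ((∑' p : Nat.Primes, lam p u) - ∑ p ∈ PR y, lam p u)
          ((∑ p ∈ PR y, lam p u) - ZC N y c u)
      rw [← e0] at i1
      linarith
    have hX0 : 0 ≤ X := norm_nonneg _
    have h4 : X ^ 2 ≤ (z + w + K') ^ 2 := by gcongr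
    have h5 : (z + w + K') ^ 2 ≤ 3 * z ^ 2 + 3 * w ^ 2 + 3 * K' ^ 2 := by
      nlinarith [sq_nonneg (z - w), sq_nonneg (z - K'), sq_nonneg (w - K')]
    simp only
    linarith

end Pool.Agent.N534.LF
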